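import Pool.Agent.H530R3.Hole.PolyRed

/-!
# Two vertices on a common hole of a perfect graph: the problem is NP-hard

An instance is a finite simple graph, given by an adjacency matrix `M : List (List Bool)`
(`matGraph M` is the graph), and two vertices, given by their numbers.  The question is whether some
induced cycle with at least four vertices contains both vertices.

The reduction from 3SAT produces bipartite graphs.  It is Bienstock's reduction for general graphs
with the vertices arranged in such a way that every conflict edge joins the two colour classes: two
tracks lead from `X` to `Y`, both pass through a gadget for each variable and one of them also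
passes through a gadget for each clause; conflict edges between opposite literals force a hole
through `X` and `Y` to follow the two tracks in parallel (up to exchanging them) and to use
non-conflicting literals only.
-/

namespace Pool.Agent.Results.MP_08b96b_lc.CommonHoleNPHard

open Pool.Agent.NPC Pool.Agent.H673R2 Pool.Agent.H530R3.Hole
open Pool.Agent.H622R2 (matGraph)

/-- Deciding whether two distinct vertices of a perfect graph lie on a common hole is `NP`-hard
under polynomial-time many-one reductions, already for bipartite graphs; so if `P ≠ NP` no
polynomial-time algorithm decides this for all perfect graphs (its behaviour on other graphs being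
unconstrained). -/
theorem result :
    NPHardOn (fun I : Inst => ValidInst I ∧ (matGraph I.1).IsBipartite ∧
      IsPerfect (matGraph I.1)) HoleInst ∧
    (PneNP → ¬ ∃ f : List Bool → List Bool, PolyTime f ∧
      ∀ I : Inst, (ValidInst I ∧ IsPerfect (matGraph I.1)) →
        (HoleInst I ↔ f (bits I) = [true])) := by
  refine ⟨hard, fun hne => no_decide ?_ hne⟩
  intro L hL
  obtain ⟨f, hf, hp, hfL⟩ := hard L hL
  exact ⟨f, hf, fun x => ⟨(hp x).1, (hp x).2.2⟩, hfL⟩

end Pool.Agent.Results.MP_08b96b_lc.CommonHoleNPHard
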